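import Mathlib
import Pool.Agent.H.MP_742cc2_an.A

namespace Pool.Agent.Results.MP_742cc2_an.Yes

open Set Filter Topology Real Pool.Agent.H.MP_742cc2_an

theorem sm (q C : ℝ) (h0 : 0 ≤ q) (h1 : q < 1) :
    Summable fun k : ℕ => C * ((k : ℝ) ^ 1 * q ^ k) := by
  have h : ‖q‖ < 1 := by rw [Real.norm_eq_abs, abs_of_nonneg h0]; exact h1
  exact (summable_pow_mul_geometric_of_norm_lt_one 1 h).mul_left C

theorem c1 (e : ℝ) (he0 : 0 ≤ e) (he : e < 3 / 10) (b c : ℕ → ℝ) (hb : ∀ k, |b k| ≤ 3 ^ k)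
    (hc : ∀ k, |c k| ≤ 3 ^ k) :
    ContDiff ℝ 1 fun p : ℝ × ℝ => ∑' k : ℕ, (k : ℝ) * (cos (2 * π * (c k * p.1 + b k * p.2))
      - cos (2 * π * (c k * p.1 + b k * p.2 + e ^ k))) := by
  have hs : Summable fun k : ℕ => 8 * π ^ 2 * ((k : ℝ) ^ 1 * (3 * e) ^ k) :=
    sm _ _ (by positivity) (by linarith)
  refine contDiff_tsum (N := 1) (v := fun _ (k : ℕ) => 8 * π ^ 2 * ((k : ℝ) ^ 1 * (3 * e) ^ k))
    (f := fun (k : ℕ) (p : ℝ × ℝ) => (k : ℝ) * (cos (2 * π * (c k * p.1 + b k * p.2))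
      - cos (2 * π * (c k * p.1 + b k * p.2 + e ^ k))))
    (fun k => by fun_prop) (fun _ _ => hs) ?_
  intro j k p hj
  have hπ := pi_gt_three
  have h3 : (1 : ℝ) ≤ 3 ^ k := one_le_pow₀ (by norm_num)
  have hek : 0 ≤ e ^ k := by positivity
  have hj' : j = 0 ∨ j = 1 := by
    have : j ≤ 1 := by exact_mod_cast hj
    omega
  rcases hj' with rfl | rfl
  · rw [norm_iteratedFDeriv_zero, Real.norm_eq_abs, abs_mul, Nat.abs_cast, pow_one, mul_pow,
      mul_left_comm]
    refine mul_le_mul_of_nonneg_left ((abs_cos_sub_cos_le _ _).trans ?_) (by positivity)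
    rw [show 2 * π * (c k * p.1 + b k * p.2) - 2 * π * (c k * p.1 + b k * p.2 + e ^ k)
      = -(2 * π * e ^ k) by ring, abs_neg, abs_of_nonneg (by positivity)]
    have : e ^ k ≤ 3 ^ k * e ^ k := le_mul_of_one_le_left hek h3
    have h2 : 2 * π ≤ 8 * π ^ 2 := by nlinarith
    exact mul_le_mul h2 this hek (by positivity)
  · rw [norm_iteratedFDeriv_one]
    have hL : HasFDerivAt (fun p : ℝ × ℝ => c k * p.1 + b k * p.2)
        (c k • ContinuousLinearMap.fst ℝ ℝ ℝ + b k • ContinuousLinearMap.snd ℝ ℝ ℝ) p :=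
      (hasFDerivAt_fst.const_mul _).add (hasFDerivAt_snd.const_mul _)
    obtain ⟨s, hs⟩ : ∃ s, s = c k * p.1 + b k * p.2 := ⟨_, rfl⟩
    have hg : HasDerivAt (fun s : ℝ => (k : ℝ) * (cos (2 * π * s) - cos (2 * π * (s + e ^ k))))
        ((k : ℝ) * (-sin (2 * π * s) * (2 * π * 1) - -sin (2 * π * (s + e ^ k)) * (2 * π * 1))) s :=
      ((((hasDerivAt_id s).const_mul (2 * π)).cos).sub
        ((((hasDerivAt_id s).add_const (e ^ k)).const_mul (2 * π)).cos)).const_mul _
    rw [hs] at hg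
    have := (hg.comp_hasFDerivAt p hL).fderiv
    rw [← hs] at this
    erw [this]
    rw [norm_smul, Real.norm_eq_abs, abs_mul, Nat.abs_cast]
    have n1 : ‖c k • ContinuousLinearMap.fst ℝ ℝ ℝ + b k • ContinuousLinearMap.snd ℝ ℝ ℝ‖
        ≤ 2 * 3 ^ k := by
      refine ContinuousLinearMap.opNorm_le_bound _ (by positivity) fun q => ?_
      have q1 : |q.1| ≤ ‖q‖ := norm_fst_le q
      have q2 : |q.2| ≤ ‖q‖ := norm_snd_le q
      have q3 := mul_le_mul (hc k) q1 (abs_nonneg _) (by positivity)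
      have q4 := mul_le_mul (hb k) q2 (abs_nonneg _) (by positivity)
      change |c k * q.1 + b k * q.2| ≤ _
      refine (abs_add_le _ _).trans ?_
      rw [abs_mul, abs_mul]
      linarith
    have n2 : |-sin (2 * π * s) * (2 * π * 1) - -sin (2 * π * (s + e ^ k)) * (2 * π * 1)|
        ≤ 2 * π * e ^ k * (2 * π) := by
      rw [show -sin (2 * π * s) * (2 * π * 1) - -sin (2 * π * (s + e ^ k)) * (2 * π * 1)
        = (sin (2 * π * (s + e ^ k)) - sin (2 * π * s)) * (2 * π) by ring, abs_mul,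
        abs_of_pos (by positivity : 0 < 2 * π)]
      refine mul_le_mul_of_nonneg_right ((abs_sin_sub_sin_le _ _).trans (le_of_eq ?_))
        (by positivity)
      rw [show 2 * π * (s + e ^ k) - 2 * π * s = 2 * π * e ^ k by ring,
        abs_of_nonneg (by positivity)]
    refine (mul_le_mul (mul_le_mul_of_nonneg_left n2 (Nat.cast_nonneg k)) n1 (norm_nonneg _)
      (by positivity)).trans (le_of_eq ?_)
    rw [mul_pow]; ring

theorem grow (e : ℝ) (he0 : 1 / 4 < e) (he : e < 3 / 10) (f : ℤ → ℝ)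
    (hf : ∀ n : ℤ, HasSum (fun k : ℕ => (k : ℝ) * (1 - cos (2 * π * (n * e ^ k)))) (f n)) :
    Tendsto f cofinite atTop := by
  rw [tendsto_atTop]
  intro M
  obtain ⟨K, hK⟩ := exists_nat_ge (8 * M)
  have hp : 0 < e ^ K := by positivity
  obtain ⟨N, hN⟩ := exists_nat_gt (1 / e ^ K)
  refine (finite_Icc (-(N : ℤ)) N).subset fun n hn => ?_
  by_contra hn2
  apply hn
  have hn3 : (N : ℝ) ≤ |(n : ℝ)| := by
    have : (N : ℤ) ≤ |n| := by
      rw [mem_Icc, not_and_or] at hn2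
      rcases hn2 with h | h
      · exact le_abs.2 (Or.inr (by omega))
      · exact le_abs.2 (Or.inl (by omega))
    exact_mod_cast this
  have hex : ∃ k : ℕ, |(n : ℝ)| * e ^ k ≤ 1 / 2 := by
    obtain ⟨k, hk⟩ := exists_pow_lt_of_lt_one (by positivity : 0 < 1 / 2 / (|(n : ℝ)| + 1))
      (by linarith : e < 1)
    rw [lt_div_iff₀ (by positivity)] at hk
    have : 0 < e ^ k := by positivity
    exact ⟨k, by nlinarith⟩
  classical
  have h1 := Nat.find_spec hex
  have hlt : K < Nat.find hex := by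
    by_contra h
    have h2 : e ^ K ≤ e ^ Nat.find hex :=
      pow_le_pow_of_le_one (by linarith) (by linarith) (not_lt.1 h)
    rw [div_lt_iff₀ hp] at hN
    have := mul_le_mul hn3 h2 hp.le (abs_nonneg _)
    linarith
  obtain ⟨k, hk⟩ : ∃ k, Nat.find hex = k + 1 := ⟨Nat.find hex - 1, by omega⟩
  have h2 := not_le.1 (Nat.find_min hex (m := k) (by omega))
  rw [hk] at h1 hlt
  have h3 : 1 / 8 ≤ |(n : ℝ)| * e ^ (k + 1) := by rw [pow_succ, ← mul_assoc]; nlinarith
  have h4 := le_hasSum (hf n) (k + 1) fun j _ =>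
    mul_nonneg (Nat.cast_nonneg _) (sub_nonneg.2 (cos_le_one _))
  have ha : |(n : ℝ) * e ^ (k + 1)| = |(n : ℝ)| * e ^ (k + 1) := by
    rw [abs_mul, abs_of_pos (by positivity : 0 < e ^ (k + 1))]
  obtain ⟨s, hs⟩ : ∃ s, s = (n : ℝ) * e ^ (k + 1) := ⟨_, rfl⟩
  rw [← hs] at h4 ha
  rw [← ha] at h1 h3
  have h5 := cos_le_one_sub_mul_cos_sq (x := 2 * π * s) (by
    rw [abs_mul, abs_of_pos (by positivity : 0 < 2 * π)]; nlinarith [pi_pos])
  have h6 : 2 / π ^ 2 * (2 * π * s) ^ 2 = 8 * |s| ^ 2 := by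
    rw [sq_abs]; field_simp; ring
  have h7 : 1 / 8 ≤ 1 - cos (2 * π * s) := by nlinarith
  have h8 : (K : ℝ) ≤ ((k + 1 : ℕ) : ℝ) := by exact_mod_cast hlt.le
  have h9 := mul_le_mul h8 h7 (by norm_num) (Nat.cast_nonneg _)
  change M ≤ f n
  linarith

theorem result : ∃ (α : UnitAddCircle × UnitAddCircle) (φ : UnitAddCircle × UnitAddCircle → ℝ)
    (T : Equiv.Perm ((UnitAddCircle × UnitAddCircle) × ℝ)),
    (∀ x : UnitAddCircle × UnitAddCircle, Dense (range fun n : ℤ => x + n • α)) ∧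
    ContDiff ℝ 1 (fun p : ℝ × ℝ => φ ((p.1 : UnitAddCircle), (p.2 : UnitAddCircle))) ∧
    (∀ x t, T (x, t) = (x + α, t + φ x)) ∧
    (∃ z, Dense (range fun n : ℤ => (T ^ n) z)) ∧
    (∃ z, Tendsto (fun n : ℤ => |((T ^ n) z).2|) cofinite atTop) := by
  obtain ⟨r, h3, h1, h2⟩ := exr
  choose a b c hu ha hb hc using units h3
  let l : ℕ → T2 → UnitAddCircle := fun k x => c k • x.1 + b k • x.2
  have hl : ∀ k x (n : ℤ), l k (x + n • al r) = l k x + ((n * (r - 1) ^ k : ℝ) : UnitAddCircle) := by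
    intro k x n
    have e : (n * (r - 1) ^ k : ℝ) = ((n * a k : ℤ) : ℝ) + (c k • n • r ^ 2 + b k • n • r) := by
      rw [hu]; simp only [zsmul_eq_mul]; push_cast; ring
    rw [e, AddCircle.coe_add, AddCircle.coe_add, coeInt]
    simp only [AddCircle.coe_zsmul, l, al, Prod.fst_add, Prod.snd_add, Prod.smul_fst,
      Prod.smul_snd, smul_add]
    abel
  let u : ℤ → ℕ → T2 → ℝ := fun n k x => (k : ℝ) * (Cs (l k x) - Cs (l k (x + n • al r)))
  have he0 : 0 < r - 1 := by linarith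
  have hsv : ∀ n : ℤ, Summable fun k : ℕ => 2 * π * |(n : ℝ)| * ((k : ℝ) ^ 1 * (r - 1) ^ k) :=
    fun n => sm _ _ he0.le (by linarith)
  have hbd : ∀ (n : ℤ) k x, ‖u n k x‖ ≤ 2 * π * |(n : ℝ)| * ((k : ℝ) ^ 1 * (r - 1) ^ k) := by
    intro n k x
    simp only [u]
    rw [hl, Real.norm_eq_abs, abs_mul, Nat.abs_cast]
    refine (mul_le_mul_of_nonneg_left (Cs_lip _ _) (Nat.cast_nonneg k)).trans (le_of_eq ?_)
    rw [abs_mul, abs_of_pos (by positivity : 0 < (r - 1) ^ k)]
    ring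
  have hsum : ∀ n x, Summable fun k => u n k x := fun n x =>
    Summable.of_norm_bounded (hsv n) fun k => hbd n k x
  let P : ℤ → T2 → ℝ := fun n x => ∑' k, u n k x
  have hPc : ∀ n, Continuous (P n) := fun n =>
    continuous_tsum (fun k => by have := Cs_cont; simp only [u, l]; fun_prop) (hsv n) (hbd n)
  have hco : ∀ n m x, P (n + m) x = P n x + P m (x + n • al r) := by
    intro n m x
    simp only [P]
    rw [← (hsum n x).tsum_add (hsum m _)]
    refine tsum_congr fun k => ?_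
    simp only [u]
    rw [add_smul, add_assoc]
    ring
  have hP0 : ∀ x, P 0 x = 0 := fun x => by simp [P, u]
  have hl0 : ∀ k, l k 0 = ((0 : ℝ) : UnitAddCircle) := fun k => by simp [l]
  have hgr : Tendsto (fun n => P n 0) cofinite atTop := by
    refine grow (r - 1) (by linarith) (by linarith) _ fun n => ?_
    convert (hsum n 0).hasSum using 2 with k
    simp only [u]
    rw [hl, hl0, ← AddCircle.coe_add, Cs_coe, Cs_coe]
    simp
  have hneg : ∀ n : ℤ, P n (0 + (-n) • al r) = -P n 0 := by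
    intro n
    simp only [P]
    rw [← tsum_neg]
    refine tsum_congr fun k => ?_
    simp only [u]
    rw [add_assoc, ← add_smul, neg_add_cancel, zero_smul, add_zero, hl, hl, hl0,
      ← AddCircle.coe_add, ← AddCircle.coe_add, Cs_coe, Cs_coe, Cs_coe]
    push_cast
    rw [zero_add, zero_add, neg_mul, mul_neg, cos_neg]
    ring
  let T : Equiv.Perm (T2 × ℝ) :=
    { toFun := fun z => (z.1 + al r, z.2 + P 1 z.1)
      invFun := fun z => (z.1 - al r, z.2 - P 1 (z.1 - al r))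
      left_inv := fun z => by simp
      right_inv := fun z => by simp }
  have hT : ∀ (n : ℤ) z, (T ^ n) z = (z.1 + n • al r, z.2 + P n z.1) := by
    intro n z
    induction n with
    | zero => simp [hP0]
    | succ n ih =>
      rw [add_comm, zpow_add, zpow_one, Equiv.Perm.mul_apply, ih, add_comm 1, hco, add_smul,
        one_smul, ← add_assoc, ← add_assoc]
      rfl
    | pred n ih =>
      rw [sub_eq_add_neg, add_comm, zpow_add, zpow_neg_one, Equiv.Perm.mul_apply, ih,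
        Equiv.Perm.inv_def, Equiv.symm_apply_eq]
      have e := hco (-1 + -n) 1 z.1
      rw [show (-1 + -n + 1 : ℤ) = -n by ring] at e
      rw [e]
      change _ = (z.1 + (-1 + -n : ℤ) • al r + al r, z.2 + P (-1 + -n) z.1 +
        P 1 (z.1 + (-1 + -n : ℤ) • al r))
      rw [add_assoc z.2]
      congr 1
      rw [add_smul, neg_one_smul]
      abel
  refine ⟨al r, P 1, T, kron h3 h1 h2, ?_, fun x t => rfl, ?_, (0, 0), ?_⟩
  · convert c1 (r - 1) he0.le (by linarith) (fun k => b k) (fun k => c k)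
      (fun k => by exact_mod_cast hb k) (fun k => by exact_mod_cast hc k) using 2 with p
    refine tsum_congr fun k => ?_
    simp only [u]
    rw [hl]
    simp only [l]
    rw [← AddCircle.coe_zsmul, ← AddCircle.coe_zsmul, ← AddCircle.coe_add, ← AddCircle.coe_add,
      Cs_coe, Cs_coe]
    simp
  · simp only [hT]
    refine trans_of (kron h3 h1 h2) P hPc hco fun s => ?_
    filter_upwards [hgr.eventually_ge_atTop |s|] with n hn
    have := abs_le.1 hn
    exact intermediate_value_univ (0 + (-n) • al r) 0 (hPc n) ⟨by rw [hneg]; exact this.1, this.2⟩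
  · simp only [hT, zero_add]
    exact tendsto_abs_atTop_atTop.comp hgr

end Pool.Agent.Results.MP_742cc2_an.Yes
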